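import Pool.Agent.H11P.Fin

namespace Pool.Agent.Results.MP_f91407_an.PowerForm

open Polynomial Pool.Agent.H11P

/-- Entrywise maps preserving real-rooted polynomials with nonnegative coefficients. -/
theorem result :
    (∀ F : ℝ → ℝ, (∀ x, 0 ≤ x → 0 ≤ F x) → F 0 = 0 → (∀ d f, P d f → P d (app F d f)) →
      ∃ c α : ℝ, 0 < c ∧ (α = 1 ∨ 11/10 < α) ∧ ∀ x, 0 ≤ x → F x = c * x ^ α) ∧
    (∀ (c : ℝ) (n : ℕ), 0 < c → 1 ≤ n → ∀ d f, P d f → P d (app (fun x => c * x ^ n) d f)) :=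
  result_main

end Pool.Agent.Results.MP_f91407_an.PowerForm
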